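import Pool.Agent.H126.Orb.Fin

/-!
# MP_6361d2_co, Q1: a negative answer

There is a group `Γ ⊂ O(5)` with 16 elements for which all strata (connected components of the
combinatorial-type classes) in every sphere are smooth submanifolds, and a stratum of
5-dimensional orbit polytopes on which `λ_1` does not attain its infimum.

`Γ` is generated by `(z, y, a) ↦ (i z, i y, a)`, `(z, y, a) ↦ (conj z, y, -a)` and
`(z, y, a) ↦ (z, -y, a)` on `ℝ^5 = ℂ × ℂ × ℝ`; the stratum consists of all `w = (z, y, a)` in the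
sphere with `0 < Im z < Re z`, `y ≠ 0`, `a > 0`.  With `t = Im z / Re z` one has there
`λ_1 = (3 + 2 t + 3 t ^ 2) / (9 + 20 t + 11 t ^ 2 + 4 t ^ 3 - 6 t ^ 4 + 2 t ^ 5)`, which is larger
than `1 / 5` for `0 < t < 1` and tends to `1 / 5` for `t → 1`.  (Only what is needed of this formula
is proved: the inequality and the limit.)

The definitions (all in `Pool.Agent.H126.Orb.Defs`) follow the problem file word by word:
`orbPoly` (`Q_w`), `FaceLattice`, `SameType`, `typeClass`, `stratum`, `IsSubmanifold`, `FullDim`,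
`verts`, `IsEdge`, `polar` (`P`), `dualFace` (`F_st`), `cw` (`c_st`), `walk` (`T(Q)`), `lam1`
(`λ_1`).
-/

set_option autoImplicit false

open Set Metric Pool.Agent.H126.Orb

namespace Pool.Agent.Results.MP_6361d2_co.MinimumNotAttained

theorem result :
    ∃ (k : ℕ) (Γ : Subgroup (E k ≃ₗᵢ[ℝ] E k)), 2 ≤ k ∧ Finite Γ ∧ ∀ r : ℝ, 0 < r →
      (∀ w ∈ sphere (0 : E k) r, IsSubmanifold (stratum Γ r w)) ∧
      ∃ w₀ ∈ sphere (0 : E k) r, (∀ w ∈ stratum Γ r w₀, FullDim (orbPoly Γ w)) ∧
        BddBelow ((fun w => lam1 (orbPoly Γ w)) '' stratum Γ r w₀) ∧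
        ∀ w ∈ stratum Γ r w₀, ∃ w' ∈ stratum Γ r w₀,
          lam1 (orbPoly Γ w') < lam1 (orbPoly Γ w) :=
  main_full

end Pool.Agent.Results.MP_6361d2_co.MinimumNotAttained
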